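import Pool.Agent.H25.TD.Dense
import Pool.Agent.H54.TW.Edges

/-!
Subdivisions of complete graphs: `sub(k) <= (7/25 + o(1)) k^2`.

For every `ε > 0` and all large `k`, every finite graph of average degree at least
`(7/25 + ε) k^2` contains a subdivision of `K_k`.
-/

namespace Pool.Agent.Results.MP_5406dc_co.UpperBound

theorem result :
    ∀ ε : ℝ, 0 < ε → ∃ K : ℕ, ∀ k : ℕ, K ≤ k →
      ∀ (V : Type) [Finite V] [Nonempty V] (G : SimpleGraph V),
        (7 / 25 + ε) * (k : ℝ) ^ 2 * (Nat.card V : ℝ) ≤ 2 * (Nat.card G.edgeSet : ℝ) →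
        ∃ f : Fin k → V, Function.Injective f ∧
          ∃ p : ∀ i j : Fin k, G.Walk (f i) (f j),
            (∀ i j : Fin k, i < j → (p i j).IsPath) ∧
            (∀ i j : Fin k, i < j → ∀ v ∈ (p i j).support,
                v ∈ Set.range f → v = f i ∨ v = f j) ∧
            (∀ i j i' j' : Fin k, i < j → i' < j' → (i, j) ≠ (i', j') →
                ∀ v ∈ (p i j).support, v ∈ (p i' j').support → v ∈ Set.range f) := by
  intro ε hε
  obtain ⟨K, hK⟩ := Pool.Agent.H25.TD.sub_le_of_tineq (7 / 50) (by norm_num)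
    Pool.Agent.H54.TW.tineq_edges ε hε
  refine ⟨K, fun k hk V _ _ G hG => hK k hk V G ?_⟩
  have h : (2 * (7 / 50 : ℝ) + ε) = 7 / 25 + ε := by ring
  rw [h]; exact hG

end Pool.Agent.Results.MP_5406dc_co.UpperBound
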